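import Pool.Agent.U955.TD.Main

set_option autoImplicit false

/-!
The list of the tadpoles which are SSP graphs, from the two statements of the packages.
-/

namespace Pool.Agent.U955.TD

open Pool.Agent.Results.MP_34deb4_co.LongTails
open Pool.Agent.U955.TP (A Le Lt)
open Pool.Agent.U955.TP.Sharp (inS_A even_case)

theorem fin (hRT : S_RT) (hOP : S_OP) (m n : ℕ) (hm : 3 ≤ m) (hn : 1 ≤ n) :
    IsSSPGraph (tadpole m n) ↔ m ≤ 2 * n + 3 := by
  constructor
  · intro h
    by_contra hmn
    by_cases h4 : m = 2 * n + 4
    · subst h4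
      exact even_case n hn (h _ (inS_A _ _ (by omega) _ _))
    · exact not_big hRT hOP m n hn (by omega) h
  · intro h
    exact Pool.Agent.Results.MP_34deb4_co.LongTails.result m n hm hn h

end Pool.Agent.U955.TD
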