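import Pool.Agent.U955.TD.Stm

set_option autoImplicit false

/-!
Identities for the sums over the energies.
-/

open Finset

namespace Pool.Agent.U955.TD

/-- the first row -/
def uu (m : ℕ) (t : ℝ) (i : ℕ) : ℝ :=
  if i = 0 then 0 else (2 * t - 5) * (W t (i - 1) + W t (m - 1 - i))

theorem uu_pos (m : ℕ) (t : ℝ) {i : ℕ} (h : 1 ≤ i) :
    uu m t i = (2 * t - 5) * (W t (i - 1) + W t (m - 1 - i)) := by
  unfold uu
  rw [if_neg (by omega)]

theorem uu_sym (m : ℕ) (t : ℝ) {i : ℕ} (h : 1 ≤ i) (h' : i + 1 ≤ m) : uu m t (m - i) = uu m t i := by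
  rw [uu_pos m t h, uu_pos m t (by omega), show m - i - 1 = m - 1 - i by omega,
    show m - 1 - (m - i) = i - 1 by omega, add_comm (W t (m - 1 - i))]

theorem W_rec (t : ℝ) {i : ℕ} (h : 1 ≤ i) : W t (i + 1) + W t (i - 1) = t * W t i := by
  obtain ⟨k, rfl⟩ : ∃ k, i = k + 1 := ⟨i - 1, by omega⟩
  rw [show k + 1 - 1 = k by omega, show k + 1 + 1 = k + 2 by omega, W]
  ring

theorem uu_rec (m : ℕ) (t : ℝ) {i : ℕ} (h : 2 ≤ i) (h' : i + 2 ≤ m) :
    uu m t (i - 1) + uu m t (i + 1) = t * uu m t i := by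
  rw [uu_pos m t (by omega : 1 ≤ i - 1), uu_pos m t (by omega : 1 ≤ i + 1),
    uu_pos m t (by omega : 1 ≤ i)]
  have e1 := W_rec t (by omega : 1 ≤ i - 1)
  have e2 := W_rec t (by omega : 1 ≤ m - 1 - i)
  rw [show i - 1 + 1 = i by omega, show i - 1 - 1 = i - 2 by omega] at e1
  rw [show i - 1 - 1 = i - 2 by omega, show i + 1 - 1 = i by omega,
    show m - 1 - (i - 1) = m - 1 - i + 1 by omega, show m - 1 - (i + 1) = m - 1 - i - 1 by omega]
  linear_combination (2 * t - 5) * (e1 + e2)

section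

variable {m : ℕ} {t : ℝ} (d1 : (2 * t - 5) * W t (m - 2) = 3)
  (d2 : (2 * t - 5) * W t (m - 3) = 4 - t)

include d1 in
theorem uu_one : uu m t 1 = 3 := by
  rw [uu_pos m t le_rfl, show m - 1 - 1 = m - 2 by omega, show 1 - 1 = 0 by omega, W, zero_add, d1]

include d2 in
theorem uu_two : uu m t 2 = t - 1 := by
  rw [uu_pos m t (by omega), show m - 1 - 2 = m - 3 by omega, show 2 - 1 = 1 by omega, W, mul_add, d2]
  ring

include d1 d2 in
/-- the free solution -/
theorem uu_free (k : ℕ) (hk : k + 3 ≤ m) :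
    uu m t (k + 2) = (t - 1) * W t (k + 1) - 3 * W t k := by
  induction k using Nat.strong_induction_on with
  | _ k ih =>
    rcases Nat.lt_or_ge k 2 with h | h
    · interval_cases k
      · rw [uu_two d2]
        simp only [W]
        ring
      · have e := uu_rec m t (i := 2) le_rfl (by omega)
        rw [show 2 - 1 = 1 by omega, uu_one d1, uu_two d2] at e
        rw [show 1 + 2 = 2 + 1 by omega]
        simp only [W]
        linear_combination e
    · have e := uu_rec m t (i := k + 1) (by omega) (by omega)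
      have e1 := ih (k - 1) (by omega) (by omega)
      have e2 := ih (k - 2) (by omega) (by omega)
      rw [show k - 1 + 2 = k + 1 by omega, show k - 1 + 1 = k by omega] at e1
      rw [show k - 2 + 2 = k by omega, show k - 2 + 1 = k - 1 by omega] at e2
      have w1 := W_rec t (by omega : 1 ≤ k)
      have w2 := W_rec t (by omega : 1 ≤ k - 1)
      rw [show k - 1 + 1 = k by omega, show k - 1 - 1 = k - 2 by omega] at w2
      rw [show k + 1 - 1 = k by omega, show k + 1 + 1 = k + 2 by omega, e1, e2] at e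
      linear_combination e - (t - 1) * w1 + 3 * w2

include d1 d2 in
theorem row_one {k : ℕ} (h : 2 ≤ k) (hk : k + 1 ≤ m) :
    W t (k - 1) + 3 * W t (k - 2) + uu m t k = t * W t (k - 1) := by
  have e := uu_free d1 d2 (k - 2) (by omega)
  rw [show k - 2 + 2 = k by omega, show k - 2 + 1 = k - 1 by omega] at e
  rw [e]
  ring

include d1 d2 in
theorem row_last {k : ℕ} (h : 1 ≤ k) (hk : k + 2 ≤ m) :
    W t (m - 1 - k) + 3 * W t (m - 2 - k) + uu m t k = t * W t (m - 1 - k) := by
  have e := row_one d1 d2 (k := m - k) (by omega) (by omega)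
  rw [uu_sym m t h (by omega), show m - k - 1 = m - 1 - k by omega,
    show m - k - 2 = m - 2 - k by omega] at e
  exact e

end

end Pool.Agent.U955.TD
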