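import Pool.Agent.U955.TD.Sym
import Pool.Agent.U955.TP.Sharp

set_option autoImplicit false

/-!
The tadpoles `T_{m,n}` with `m ≥ 2 n + 5` are not SSP graphs.
-/

open Finset

namespace Pool.Agent.U955.TD

open Pool.Agent.U955.TP (A acc app op_inl op_inr A_symm acc_comm app_comm)
open Pool.Agent.U955.TP.Sharp (inS_A not_ssp)
open Pool.Agent.Results.MP_34deb4_co.LongTails

variable {m n : ℕ} {al ga : ℕ → ℝ} {t r : Fin (n + 2) → ℝ} {f : ℕ → Fin (n + 2) → ℝ}

/-- the symmetrizing weights on the cycle -/
noncomputable def hc (m : ℕ) (ga : ℕ → ℝ) (i : ℕ) : ℝ :=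
  if i = 0 then 2 / (3 * ga 1) else if i = 1 ∨ i + 1 = m then 1 / 3 else 1

/-- the symmetrizing weights -/
noncomputable def hh (m n : ℕ) (ga : ℕ → ℝ) : Fin m ⊕ Fin n → ℝ
  | .inl i => hc m ga i.1
  | .inr i => 2 / (3 * ∏ l ∈ range (i.1 + 2), ga (l + 1))

theorem ga1 (D : Dat m n al ga t r f) : 0 < ga 1 := D.ga_pos 1 le_rfl (by omega)

theorem ga2 (D : Dat m n al ga t r f) : 0 < ga 2 := D.ga_pos 2 (by omega) (by have := D.hn; omega)

theorem hh_pos (D : Dat m n al ga t r f) (x : Fin m ⊕ Fin n) : 0 < hh m n ga x := by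
  rcases x with i | i
  · have := ga1 D
    simp only [hh, hc]
    split_ifs <;> positivity
  · have hi := i.2
    simp only [hh]
    have : 0 < ∏ l ∈ range (i.1 + 2), ga (l + 1) := by
      refine prod_pos fun l hl => D.ga_pos _ (by omega) ?_
      rw [mem_range] at hl
      omega
    positivity

theorem wt_ne (D : Dat m n al ga t r f) (x y : Fin m ⊕ Fin n) : wt m n ga x y ≠ 0 := by
  have h1 := (ga1 D).ne'
  have h2 := (ga2 D).ne'
  rcases x with i | i <;> rcases y with j | j
  · simp only [wt, wcc]
    split_ifs <;> first | exact h1 | norm_num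
  · simp only [wt]
    norm_num
  · simp only [wt]
    exact h2
  · have hi := i.2
    simp only [wt, wpp]
    split_ifs with h
    · exact (D.ga_pos _ (by omega) (by omega)).ne'
    · norm_num

theorem wcc_step (D : Dat m n al ga t r f) {i : ℕ} (hi : i + 1 < m) :
    hc m ga i * wcc m ga i (i + 1) = hc m ga (i + 1) * wcc m ga (i + 1) i := by
  have hm := D.hm
  have h1 := (ga1 D).ne'
  unfold hc wcc
  rcases Nat.lt_or_ge i 1 with h | h
  · obtain rfl : i = 0 := by omega
    rw [if_pos rfl, if_pos rfl, if_neg (by omega), if_neg (by omega), if_pos (by omega),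
      if_neg (by omega), if_pos (by omega), if_pos rfl]
    field_simp
  · rcases Nat.lt_or_ge i 2 with h' | h'
    · obtain rfl : i = 1 := by omega
      rw [if_neg (by omega), if_pos (by omega), if_neg (by omega), if_pos (by omega),
        if_neg (by omega), if_neg (by omega), if_neg (by omega), if_neg (by omega),
        if_neg (by omega), if_neg (by omega)]
      norm_num
    · by_cases h'' : i + 2 = m
      · rw [if_neg (by omega), if_neg (by omega), if_neg (by omega), if_neg (by omega),
          if_neg (by omega), if_pos (by omega), if_neg (by omega), if_pos (by omega),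
          if_neg (by omega), if_neg (by omega)]
        norm_num
      · rw [if_neg (by omega), if_neg (by omega), if_neg (by omega), if_neg (by omega),
          if_neg (by omega), if_neg (by omega), if_neg (by omega), if_neg (by omega)]

theorem wcc_wrap (D : Dat m n al ga t r f) :
    hc m ga 0 * wcc m ga 0 (m - 1) = hc m ga (m - 1) * wcc m ga (m - 1) 0 := by
  have hm := D.hm
  have h1 := (ga1 D).ne'
  unfold hc wcc
  rw [if_pos rfl, if_pos rfl, if_neg (by omega), if_neg (by omega), if_pos (by omega),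
    if_neg (by omega), if_pos (by omega), if_pos rfl]
  field_simp

theorem h_acc (D : Dat m n al ga t r f) {i j : ℕ} (hi : i < m) (hj : j < m) :
    hc m ga i * (acc m (Lc m al) i j * wcc m ga i j) =
      hc m ga j * (acc m (Lc m al) j i * wcc m ga j i) := by
  rw [acc_comm m _ j i]
  suffices h : acc m (Lc m al) i j = 0 ∨ hc m ga i * wcc m ga i j = hc m ga j * wcc m ga j i by
    rcases h with h | h
    · rw [h]
      ring
    · linear_combination acc m (Lc m al) i j * h
  by_cases c0 : i = j
  · right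
    rw [c0]
  by_cases c1 : j = i + 1
  · right
    subst c1
    exact wcc_step D hj
  by_cases c2 : j + 1 = i
  · right
    subst c2
    exact (wcc_step D hi).symm
  by_cases c3 : i = 0 ∧ j + 1 = m
  · right
    obtain ⟨rfl, c3⟩ := c3
    obtain rfl : j = m - 1 := by omega
    exact wcc_wrap D
  by_cases c4 : j = 0 ∧ i + 1 = m
  · right
    obtain ⟨rfl, c4⟩ := c4
    obtain rfl : i = m - 1 := by omega
    exact (wcc_wrap D).symm
  left
  unfold acc
  rw [if_neg c1, if_neg c2, if_neg c3, if_neg c4, if_neg c0]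
  norm_num

theorem h_app (D : Dat m n al ga t r f) {i : ℕ} (hi : i + 1 < n) :
    2 / (3 * ∏ l ∈ range (i + 2), ga (l + 1)) * wpp ga i (i + 1) =
      2 / (3 * ∏ l ∈ range (i + 1 + 2), ga (l + 1)) * wpp ga (i + 1) i := by
  have h1 : (∏ l ∈ range (i + 2), ga (l + 1)) ≠ 0 := by
    refine prod_ne_zero_iff.2 fun l hl => (D.ga_pos _ (by omega) ?_).ne'
    rw [mem_range] at hl
    omega
  have h2 : ga (i + 2 + 1) ≠ 0 := (D.ga_pos _ (by omega) (by omega)).ne'
  unfold wpp
  rw [if_neg (by omega), if_pos rfl, show i + 1 + 2 = i + 2 + 1 by omega,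
    prod_range_succ (fun l => ga (l + 1)) (i + 2)]
  field_simp

theorem h_symm (D : Dat m n al ga t r f) (x y : Fin m ⊕ Fin n) :
    hh m n ga x * Ah m n al ga x y = hh m n ga y * Ah m n al ga y x := by
  have hcp : ∀ (i : Fin m) (j : Fin n), hh m n ga (.inl i) * Ah m n al ga (.inl i) (.inr j) =
      hh m n ga (.inr j) * Ah m n al ga (.inr j) (.inl i) := by
    intro i j
    simp only [hh, Ah, A, wt]
    by_cases h : i.1 = 0 ∧ j.1 = 0
    · rw [if_pos h, h.1, h.2]
      have h1 := (ga1 D).ne'
      have h2 := (ga2 D).ne'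
      unfold hc
      rw [if_pos rfl, prod_range_succ, prod_range_succ, prod_range_zero]
      simp only [zero_add, one_mul, mul_one, show 1 + 1 = 2 from rfl]
      field_simp
    · rw [if_neg h]
      ring
  rcases x with i | i <;> rcases y with j | j
  · exact h_acc D i.2 j.2
  · exact hcp i j
  · exact (hcp j i).symm
  · have hi := i.2
    have hj := j.2
    simp only [hh, Ah, A, wt]
    generalize i.1 = i at hi ⊢
    generalize j.1 = j at hj ⊢
    rw [app_comm _ j i]
    by_cases c0 : i = j
    · rw [c0]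
    by_cases c1 : j = i + 1
    · subst c1
      linear_combination app (Lp al) i (i + 1) * h_app D hj
    by_cases c2 : j + 1 = i
    · subst c2
      linear_combination - app (Lp al) (j + 1) j * h_app D hi
    unfold app
    rw [if_neg c1, if_neg c2, if_neg c0]
    ring

/-- the symmetric matrix -/
noncomputable def As (m n : ℕ) (al ga : ℕ → ℝ) : Matrix (Fin m ⊕ Fin n) (Fin m ⊕ Fin n) ℝ :=
  fun x y => √(hh m n ga x) * Ah m n al ga x y / √(hh m n ga y)

/-- the matrix which commutes with it -/
noncomputable def Xs (m n : ℕ) (ga : ℕ → ℝ) (t r : Fin (n + 2) → ℝ) (f : ℕ → Fin (n + 2) → ℝ) :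
    Matrix (Fin m ⊕ Fin n) (Fin m ⊕ Fin n) ℝ :=
  fun x y => √(hh m n ga x) * Xh m n t r f x y * √(hh m n ga y)

theorem As_symm (D : Dat m n al ga t r f) (x y : Fin m ⊕ Fin n) :
    As m n al ga x y = As m n al ga y x := by
  have hx := Real.sqrt_pos.2 (hh_pos D x)
  have hy := Real.sqrt_pos.2 (hh_pos D y)
  have ex := Real.mul_self_sqrt (hh_pos D x).le
  have ey := Real.mul_self_sqrt (hh_pos D y).le
  unfold As
  rw [div_eq_div_iff hy.ne' hx.ne']
  have := h_symm D x y
  rw [← ex, ← ey] at this
  linear_combination this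

theorem Xs_symm (x y : Fin m ⊕ Fin n) : Xs m n ga t r f x y = Xs m n ga t r f y x := by
  unfold Xs
  rw [Xh_comm m n t r f x y]
  ring

theorem inS_As (D : Dat m n al ga t r f) : InS (tadpole m n) (As m n al ga) := by
  have hm := D.hm
  refine ⟨Matrix.IsSymm.ext fun x y => As_symm D y x, fun x y hxy => ?_⟩
  rw [← (inS_A m n (by omega) (Lc m al) (Lp al)).2 x y hxy]
  have hx := Real.sqrt_pos.2 (hh_pos D x)
  have hy := Real.sqrt_pos.2 (hh_pos D y)
  unfold As Ah
  constructor
  · intro h h'
    apply h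
    rw [h']
    simp
  · intro h
    exact div_ne_zero (mul_ne_zero hx.ne' (mul_ne_zero h (wt_ne D x y))) hy.ne'

theorem mul_As (D : Dat m n al ga t r f) (x y : Fin m ⊕ Fin n) :
    (As m n al ga * Xs m n ga t r f) x y =
      √(hh m n ga x) * √(hh m n ga y) * S m n al ga t r f x y := by
  rw [Matrix.mul_apply]
  unfold S
  rw [mul_sum]
  refine sum_congr rfl fun z _ => ?_
  have hz := (Real.sqrt_pos.2 (hh_pos D z)).ne'
  unfold As Xs
  field_simp

theorem commute_s (D : Dat m n al ga t r f) :
    As m n al ga * Xs m n ga t r f = Xs m n ga t r f * As m n al ga := by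
  ext x y
  have h : (Xs m n ga t r f * As m n al ga) x y = (As m n al ga * Xs m n ga t r f) y x := by
    rw [Matrix.mul_apply, Matrix.mul_apply]
    refine sum_congr rfl fun z _ => ?_
    rw [Xs_symm x z, As_symm D z y]
    ring
  rw [h, mul_As D, mul_As D, S_symm D x y]
  ring

theorem Xh_diag (D : Dat m n al ga t r f) (x : Fin m ⊕ Fin n) : Xh m n t r f x x = 0 := by
  rcases x with i | i
  · simp only [Xh, colc]
    by_cases h : i.1 = 0
    · rw [if_pos h, h, G_zero]
    · rw [if_neg h, if_neg h, Nat.sub_self, add_zero, H_zero]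
  · rfl

theorem Xh_edge (D : Dat m n al ga t r f) (x y : Fin m ⊕ Fin n) (h : (tadpole m n).Adj x y) :
    Xh m n t r f x y = 0 := by
  have hm := D.hm
  have z : ∀ i : ℕ, 1 ≤ i → H t r ((i + 1 - i) + (i - (i + 1))) = 0 := by
    intro i _
    rw [show (i + 1 - i) + (i - (i + 1)) = 1 by omega, H_one D]
  have step : ∀ i : ℕ, i + 1 < m → colc m t r f i (i + 1) = 0 := by
    intro i hi
    unfold colc
    rw [if_neg (by omega)]
    by_cases h : i = 0
    · rw [if_pos h, h, G_orth D le_rfl]
    · rw [if_neg h, z i (by omega)]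
  have wrap : colc m t r f 0 (m - 1) = 0 := by
    rw [colc_z, G_sym 1 le_rfl (by omega), G_orth D le_rfl]
  rcases x with i | i <;> rcases y with j | j
  · rw [adj_cc (by omega)] at h
    simp only [Xh]
    have hi := i.2
    have hj := j.2
    rcases h with h | h | h | h
    · rw [colc_comm, ← h]
      exact step _ (by omega)
    · rw [← h]
      exact step _ (by omega)
    · rw [colc_comm, h.1, show j.1 = m - 1 by omega]
      exact wrap
    · rw [h.1, show i.1 = m - 1 by omega]
      exact wrap
  · rw [SimpleGraph.adj_comm, adj_pc] at h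
    simp only [Xh]
    rw [h.2, G_zero]
  · rw [adj_pc] at h
    simp only [Xh]
    rw [h.2, G_zero]
  · rfl

theorem G_two (D : Dat m n al ga t r f) (hr : ∀ j, 0 < r j) (h0 : 5 / 2 < t 0) :
    0 < G m t r f 1 2 := by
  have h := D.orth 1 le_rfl
  have e : G m t r f 1 2 = ∑ j, r j * (t j - 5 / 2) ^ 2 + 3 / 2 * ∑ j, r j * f 1 j := by
    unfold G
    rw [mul_sum, ← sum_add_distrib]
    refine sum_congr rfl fun j _ => ?_
    rw [uu_two (D.d2 j), D.f1]
    ring
  rw [e, h, mul_zero, add_zero]
  refine sum_pos' (fun j _ => mul_nonneg (hr j).le (sq_nonneg _)) ⟨0, mem_univ _, ?_⟩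
  have : (0 : ℝ) < t 0 - 5 / 2 := by linarith
  exact mul_pos (hr 0) (by positivity)

theorem not_ssp_of_dat (D : Dat m n al ga t r f) (hr : ∀ j, 0 < r j) (h0 : 5 / 2 < t 0) :
    ¬ HasSSP (As m n al ga) := by
  have hm := D.hm
  refine not_ssp (tadpole m n) _ (Xs m n ga t r f) (inS_As D)
    (Matrix.IsSymm.ext fun x y => Xs_symm y x) (fun x => ?_) (fun x y h => ?_) (commute_s D)
    (.inl ⟨0, by omega⟩) (.inl ⟨2, by omega⟩) ?_
  · unfold Xs
    rw [Xh_diag D]
    ring
  · unfold Xs
    rw [Xh_edge D x y h]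
    ring
  · unfold Xs
    refine mul_ne_zero (mul_ne_zero (Real.sqrt_pos.2 (hh_pos D _)).ne' ?_)
      (Real.sqrt_pos.2 (hh_pos D _)).ne'
    simp only [Xh]
    rw [colc_comm, colc_z]
    exact (G_two D hr h0).ne'

theorem not_big (hRT : S_RT) (hOP : S_OP) (m n : ℕ) (hn : 1 ≤ n) (hm : 2 * n + 5 ≤ m) :
    ¬ IsSSPGraph (tadpole m n) := by
  obtain ⟨t, hinj, h0, hlt, hD⟩ := hRT n m hm
  set c : ℝ := ∑ i : Fin (n + 2), (if i = 0 then 0 else 5 / 2 - t i) with hc
  have hcpos : 0 < c := by
    refine sum_pos' (fun i _ => ?_) ⟨1, mem_univ _, ?_⟩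
    · split_ifs with h
      · exact le_rfl
      · have := hlt i h
        linarith
    · have h1 : (1 : Fin (n + 2)) ≠ 0 := by
        intro h
        have := congrArg Fin.val h
        simp at this
      rw [if_neg h1]
      have := hlt 1 h1
      linarith
  have hpos : 0 < t 0 - 5 / 2 := by linarith
  set r : Fin (n + 2) → ℝ := fun j => if j = 0 then c / (t 0 - 5 / 2) else 1 with hrdef
  have hr : ∀ j, 0 < r j := by
    intro j
    simp only [hrdef]
    split_ifs
    · positivity
    · norm_num
  have hsum : ∑ j, r j * (t j - 5 / 2) = 0 := by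
    have e : ∀ j, r j * (t j - 5 / 2) = (if j = 0 then c else 0) -
        (if j = 0 then 0 else 5 / 2 - t j) := by
      intro j
      simp only [hrdef]
      split_ifs with h
      · subst h
        rw [div_mul_cancel₀ _ hpos.ne', sub_zero]
      · ring
    rw [sum_congr rfl fun j _ => e j, sum_sub_distrib, ← hc, sum_ite_eq' univ (0 : Fin (n + 2))]
    simp
  obtain ⟨al, ga, f, hga, hf0, hf1, hfrec, hflast, horth⟩ :=
    hOP (n + 2) t r (by omega) hinj hr (5 / 2) hsum
  have D : Dat m n al ga t r f :=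
    { hm := by omega
      hn := hn
      d1 := fun j => (hD j).1
      d2 := fun j => (hD j).2
      ga_pos := hga
      f0 := hf0
      f1 := hf1
      frec := hfrec
      flast := hflast
      orth := horth }
  exact fun h => not_ssp_of_dat D hr h0 (h _ (inS_As D))

end Pool.Agent.U955.TD
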