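import Pool.Agent.U955.TD.Ids
import Pool.Agent.U955.TP.Even

set_option autoImplicit false

/-!
The matrices: a matrix `Ah` which is similar to a symmetric one by a diagonal matrix, and `Xh`.
-/

open Finset

namespace Pool.Agent.U955.TD

open Pool.Agent.U955.TP (A acc app op_inl op_inr A_symm)

section

variable (m n : ℕ) (al ga : ℕ → ℝ)

/-- loops on the cycle -/
def Lc (i : ℕ) : ℝ := if i = 0 then al 1 else if i = 1 ∨ i + 1 = m then 1 else 0

/-- loops on the path -/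
def Lp (i : ℕ) : ℝ := al (i + 2)

/-- weights -/
def wcc (i j : ℕ) : ℝ :=
  if i = 0 then (if j = 0 then 1 else ga 1)
  else if i = 1 ∨ i + 1 = m then (if j = 0 then 2 else if j = i then 1 else 3) else 1

def wpp (i j : ℕ) : ℝ := if j + 1 = i then ga (i + 2) else 1

def wt : Fin m ⊕ Fin n → Fin m ⊕ Fin n → ℝ
  | .inl i, .inl j => wcc m ga i.1 j.1
  | .inl _, .inr _ => 1
  | .inr _, .inl _ => ga 2
  | .inr i, .inr j => wpp ga i.1 j.1

def Ah (x y : Fin m ⊕ Fin n) : ℝ := A m n (Lc m al) (Lp al) x y * wt m n ga x y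

variable {N : ℕ} (t r : Fin N → ℝ) (f : ℕ → Fin N → ℝ)

def G (s i : ℕ) : ℝ := ∑ j, r j * f s j * uu m (t j) i
def T (s i : ℕ) : ℝ := ∑ j, r j * f s j * (t j * uu m (t j) i)
def H (d : ℕ) : ℝ := ∑ j, r j * ((2 * t j - 5) * W (t j) d)
def TH (d : ℕ) : ℝ := ∑ j, r j * ((2 * t j - 5) * (t j * W (t j) d))

/-- column of a vertex of the cycle -/
def colc (k i : ℕ) : ℝ :=
  if i = 0 then G m t r f 1 k else if k = 0 then G m t r f 1 i else H t r ((i - k) + (k - i))

def Xh : Fin m ⊕ Fin n → Fin m ⊕ Fin n → ℝ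
  | .inl i, .inl j => colc m t r f j.1 i.1
  | .inl i, .inr s => G m t r f (s.1 + 2) i.1
  | .inr s, .inl i => G m t r f (s.1 + 2) i.1
  | .inr _, .inr _ => 0

theorem G_zero (s : ℕ) : G m t r f s 0 = 0 := by
  unfold G uu
  simp

theorem T_zero (s : ℕ) : T m t r f s 0 = 0 := by
  unfold T uu
  simp

theorem H_zero : H t r 0 = 0 := by
  unfold H
  simp [W]

theorem colc_comm (i k : ℕ) : colc m t r f k i = colc m t r f i k := by
  unfold colc
  by_cases h : i = 0
  · by_cases h' : k = 0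
    · rw [h, h']
    · rw [if_pos h, if_neg h', if_pos h]
  · by_cases h' : k = 0
    · rw [if_neg h, if_pos h', if_pos h']
    · rw [if_neg h, if_neg h', if_neg h', if_neg h, add_comm]

theorem Xh_comm (x y : Fin m ⊕ Fin n) : Xh m n t r f x y = Xh m n t r f y x := by
  rcases x with i | i <;> rcases y with j | j
  · exact colc_comm m t r f _ _
  · rfl
  · rfl
  · rfl

end

/-- the data -/
structure Dat (m n : ℕ) (al ga : ℕ → ℝ) (t r : Fin (n + 2) → ℝ) (f : ℕ → Fin (n + 2) → ℝ) :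
    Prop where
  hm : 6 ≤ m
  hn : 1 ≤ n
  d1 : ∀ j, (2 * t j - 5) * W (t j) (m - 2) = 3
  d2 : ∀ j, (2 * t j - 5) * W (t j) (m - 3) = 4 - t j
  ga_pos : ∀ s, 1 ≤ s → s < n + 2 → 0 < ga s
  f0 : ∀ j, f 0 j = 1
  f1 : ∀ j, f 1 j = t j - 5 / 2
  frec : ∀ s j, f (s + 2) j = (t j - al (s + 1)) * f (s + 1) j - ga (s + 1) * f s j
  flast : ∀ j, f (n + 2) j = 0
  orth : ∀ s, 1 ≤ s → ∑ j, r j * f s j = 0

variable {m n : ℕ} {al ga : ℕ → ℝ} {t r : Fin (n + 2) → ℝ} {f : ℕ → Fin (n + 2) → ℝ}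

theorem G_mid (s : ℕ) {i : ℕ} (h : 2 ≤ i) (h' : i + 2 ≤ m) :
    G m t r f s (i - 1) + G m t r f s (i + 1) = T m t r f s i := by
  unfold G T
  rw [← sum_add_distrib]
  refine sum_congr rfl fun j _ => ?_
  rw [← uu_rec m (t j) h h']
  ring

theorem G_one (D : Dat m n al ga t r f) (s : ℕ) :
    G m t r f s 1 + 3 * G m t r f s 2 = T m t r f s 1 := by
  unfold G T
  rw [mul_sum, ← sum_add_distrib]
  refine sum_congr rfl fun j _ => ?_
  rw [uu_one (D.d1 j), uu_two (D.d2 j)]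
  ring

theorem G_sym (s : ℕ) {i : ℕ} (h : 1 ≤ i) (h' : i + 1 ≤ m) :
    G m t r f s (m - i) = G m t r f s i := by
  unfold G
  refine sum_congr rfl fun j _ => ?_
  rw [uu_sym m (t j) h h']

theorem T_sym (s : ℕ) {i : ℕ} (h : 1 ≤ i) (h' : i + 1 ≤ m) :
    T m t r f s (m - i) = T m t r f s i := by
  unfold T
  refine sum_congr rfl fun j _ => ?_
  rw [uu_sym m (t j) h h']

theorem G_last (D : Dat m n al ga t r f) (s : ℕ) :
    G m t r f s (m - 1) + 3 * G m t r f s (m - 2) = T m t r f s (m - 1) := by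
  have := D.hm
  rw [G_sym s le_rfl (by omega), G_sym s (by omega) (by omega), T_sym s le_rfl (by omega)]
  exact G_one D s

theorem G_tail (D : Dat m n al ga t r f) (s i : ℕ) :
    G m t r f (s + 2) i + al (s + 1) * G m t r f (s + 1) i + ga (s + 1) * G m t r f s i =
      T m t r f (s + 1) i := by
  unfold G T
  rw [mul_sum, mul_sum, ← sum_add_distrib, ← sum_add_distrib]
  refine sum_congr rfl fun j _ => ?_
  rw [D.frec]
  ring

theorem G_zero_eq (D : Dat m n al ga t r f) {i : ℕ} (h : 1 ≤ i) :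
    G m t r f 0 i = H t r (i - 1) + H t r (m - 1 - i) := by
  unfold G H
  rw [← sum_add_distrib]
  refine sum_congr rfl fun j _ => ?_
  rw [D.f0, uu_pos m (t j) h]
  ring

theorem H_rec (d : ℕ) (h : 1 ≤ d) : H t r (d + 1) + H t r (d - 1) = TH t r d := by
  unfold H TH
  rw [← sum_add_distrib]
  refine sum_congr rfl fun j _ => ?_
  rw [← W_rec (t j) h]
  ring

theorem H_one (D : Dat m n al ga t r f) : H t r 1 = 0 := by
  have h := D.orth 1 le_rfl
  have : H t r 1 = 2 * ∑ j, r j * f 1 j := by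
    unfold H
    rw [mul_sum]
    refine sum_congr rfl fun j _ => ?_
    rw [D.f1, W]
    ring
  rw [this, h, mul_zero]

theorem H_row_one (D : Dat m n al ga t r f) {k : ℕ} (h : 2 ≤ k) (hk : k + 1 ≤ m) :
    H t r (k - 1) + 3 * H t r (k - 2) + 2 * G m t r f 1 k = TH t r (k - 1) := by
  unfold H TH G
  rw [mul_sum, mul_sum, ← sum_add_distrib, ← sum_add_distrib]
  refine sum_congr rfl fun j _ => ?_
  rw [← row_one (D.d1 j) (D.d2 j) h hk, D.f1]
  ring

theorem H_row_last (D : Dat m n al ga t r f) {k : ℕ} (h : 1 ≤ k) (hk : k + 2 ≤ m) :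
    H t r (m - 1 - k) + 3 * H t r (m - 2 - k) + 2 * G m t r f 1 k = TH t r (m - 1 - k) := by
  unfold H TH G
  rw [mul_sum, mul_sum, ← sum_add_distrib, ← sum_add_distrib]
  refine sum_congr rfl fun j _ => ?_
  rw [← row_last (D.d1 j) (D.d2 j) h hk, D.f1]
  ring

theorem G_orth (D : Dat m n al ga t r f) {s : ℕ} (hs : 1 ≤ s) : G m t r f s 1 = 0 := by
  have h := D.orth s hs
  have : G m t r f s 1 = 3 * ∑ j, r j * f s j := by
    unfold G
    rw [mul_sum]
    refine sum_congr rfl fun j _ => ?_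
    rw [uu_one (D.d1 j)]
    ring
  rw [this, h, mul_zero]

theorem G_flast (D : Dat m n al ga t r f) (i : ℕ) : G m t r f (n + 2) i = 0 := by
  unfold G
  exact sum_eq_zero fun j _ => by rw [D.flast]; ring

/-- the row of a vertex of the cycle -/
theorem row_c (D : Dat m n al ga t r f) (i : Fin m) (y : Fin m ⊕ Fin n) (F K : ℕ → ℝ)
    (hF : ∀ j : Fin m, Xh m n t r f (.inl j) y = F j.1)
    (hK : ∀ j : Fin n, Xh m n t r f (.inr j) y = K j.1) :
    ∑ z, Ah m n al ga (.inl i) z * Xh m n t r f z y =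
      (if i.1 + 1 < m then wcc m ga i.1 (i.1 + 1) * F (i.1 + 1) else 0) +
      (if 1 ≤ i.1 then wcc m ga i.1 (i.1 - 1) * F (i.1 - 1) else 0) +
      (if i.1 = 0 then wcc m ga i.1 (m - 1) * F (m - 1) else 0) +
      (if i.1 + 1 = m then wcc m ga i.1 0 * F 0 else 0) +
      Lc m al i.1 * (wcc m ga i.1 i.1 * F i.1) + (if i.1 = 0 then K 0 else 0) := by
  rw [← op_inl m n (Lc m al) (Lp al) D.hn i (fun j => wcc m ga i.1 j * F j) K]
  refine sum_congr rfl fun z _ => ?_
  rcases z with j | j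
  · rw [hF]
    simp only [Ah, wt, Sum.elim_inl]
    ring
  · rw [hK]
    simp only [Ah, wt, Sum.elim_inr]
    ring

/-- the row of a vertex of the path -/
theorem row_p (D : Dat m n al ga t r f) (i : Fin n) (y : Fin m ⊕ Fin n) (F K : ℕ → ℝ)
    (hF : ∀ j : Fin m, Xh m n t r f (.inl j) y = F j.1)
    (hK : ∀ j : Fin n, Xh m n t r f (.inr j) y = K j.1) :
    ∑ z, Ah m n al ga (.inr i) z * Xh m n t r f z y =
      (if i.1 + 1 < n then wpp ga i.1 (i.1 + 1) * K (i.1 + 1) else 0) +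
      (if 1 ≤ i.1 then wpp ga i.1 (i.1 - 1) * K (i.1 - 1) else 0) +
      Lp al i.1 * (wpp ga i.1 i.1 * K i.1) + (if i.1 = 0 then ga 2 * F 0 else 0) := by
  have hm := D.hm
  rw [← op_inr m n (Lc m al) (Lp al) (by omega) i (fun j => ga 2 * F j)
    (fun j => wpp ga i.1 j * K j)]
  refine sum_congr rfl fun z _ => ?_
  rcases z with j | j
  · rw [hF]
    simp only [Ah, wt, Sum.elim_inl]
    ring
  · rw [hK]
    simp only [Ah, wt, Sum.elim_inr]
    ring

end Pool.Agent.U955.TD
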