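import Mathlib

set_option autoImplicit false

/-!
Statements for the tadpoles `T_{m,n}`, `m ≥ 2 n + 5` (MP_34deb4_co, Q2).
-/

open Finset

namespace Pool.Agent.U955.TD

/-- `0, 1, t, t ^ 2 - 1, …` (Chebyshev polynomials of the second kind, shifted) -/
def W (t : ℝ) : ℕ → ℝ
  | 0 => 0
  | 1 => 1
  | (i + 2) => t * W t (i + 1) - W t i

/-- package RT: the `n + 2` energies -/
def S_RT : Prop := ∀ n m : ℕ, 2 * n + 5 ≤ m → ∃ t : Fin (n + 2) → ℝ, Function.Injective t ∧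
  5 / 2 < t 0 ∧ (∀ j, j ≠ 0 → t j < 2) ∧
  ∀ j, (2 * t j - 5) * W (t j) (m - 2) = 3 ∧ (2 * t j - 5) * W (t j) (m - 3) = 4 - t j

/-- package OP: orthogonal polynomials of a discrete measure with `N` atoms -/
def S_OP : Prop := ∀ (N : ℕ) (t r : Fin N → ℝ), 2 ≤ N → Function.Injective t → (∀ j, 0 < r j) →
  ∀ a : ℝ, ∑ j, r j * (t j - a) = 0 →
  ∃ (α γ : ℕ → ℝ) (f : ℕ → Fin N → ℝ), (∀ s, 1 ≤ s → s < N → 0 < γ s) ∧ (∀ j, f 0 j = 1) ∧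
    (∀ j, f 1 j = t j - a) ∧
    (∀ s j, f (s + 2) j = (t j - α (s + 1)) * f (s + 1) j - γ (s + 1) * f s j) ∧
    (∀ j, f N j = 0) ∧ ∀ s, 1 ≤ s → ∑ j, r j * f s j = 0

end Pool.Agent.U955.TD
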