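import Pool.Agent.U955.TD.Mat

set_option autoImplicit false

/-!
The product `Ah * Xh` is symmetric.
-/

open Finset

namespace Pool.Agent.U955.TD

open Pool.Agent.U955.TP (A acc app op_inl op_inr A_symm)

variable {m n : ℕ} {al ga : ℕ → ℝ} {t r : Fin (n + 2) → ℝ} {f : ℕ → Fin (n + 2) → ℝ}

/-- the product -/
def S (m n : ℕ) (al ga : ℕ → ℝ) (t r : Fin (n + 2) → ℝ) (f : ℕ → Fin (n + 2) → ℝ)
    (x y : Fin m ⊕ Fin n) : ℝ :=
  ∑ z, Ah m n al ga x z * Xh m n t r f z y

/-- the rows at the cycle away from `c_0`, columns of the form `G s` -/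
theorem S_G (D : Dat m n al ga t r f) (s : ℕ) (k : Fin m) (hk : 1 ≤ k.1) (y : Fin m ⊕ Fin n)
    (K : ℕ → ℝ) (hF : ∀ j : Fin m, Xh m n t r f (.inl j) y = G m t r f s j.1)
    (hK : ∀ j : Fin n, Xh m n t r f (.inr j) y = K j.1) :
    S m n al ga t r f (.inl k) y = T m t r f s k.1 := by
  have hm := D.hm
  have hk' := k.2
  unfold S
  rw [row_c D k y (G m t r f s) K hF hK]
  generalize k.1 = k at hk hk' ⊢
  have z := G_zero m t r f s
  rcases Nat.lt_or_ge k 2 with h1 | h1
  · obtain rfl : k = 1 := by omega
    have e := G_one D s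
    unfold wcc Lc
    rw [if_pos (by omega), if_neg (by omega), if_pos (by omega), if_neg (by omega),
      if_neg (by omega), if_pos (by omega), if_neg (by omega), if_pos (by omega),
      if_pos (by omega), if_neg (by omega), if_neg (by omega), if_neg (by omega),
      if_pos (by omega), if_neg (by omega), if_pos (by omega), if_neg (by omega),
      if_pos (by omega), if_neg (by omega),
      show (1 : ℕ) + 1 = 2 by omega, show 1 - 1 = 0 by omega, z]
    linear_combination e
  · rcases Nat.lt_or_ge k (m - 1) with h2 | h2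
    · have e := G_mid (m := m) (t := t) (r := r) (f := f) s h1 (by omega)
      have w : ∀ j, wcc m ga k j = 1 := by
        intro j
        unfold wcc
        rw [if_neg (by omega), if_neg (by omega)]
      unfold Lc
      rw [w, w, w, w, w, if_pos (by omega), if_pos (by omega), if_neg (by omega),
        if_neg (by omega), if_neg (by omega), if_neg (by omega), if_neg (by omega)]
      linear_combination e
    · obtain rfl : k = m - 1 := by omega
      have e := G_last D s
      have w0 : wcc m ga (m - 1) 0 = 2 := by
        unfold wcc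
        rw [if_neg (by omega), if_pos (by omega), if_pos rfl]
      have w1 : wcc m ga (m - 1) (m - 1) = 1 := by
        unfold wcc
        rw [if_neg (by omega), if_pos (by omega), if_neg (by omega), if_pos rfl]
      have w2 : wcc m ga (m - 1) (m - 1 - 1) = 3 := by
        unfold wcc
        rw [if_neg (by omega), if_pos (by omega), if_neg (by omega), if_neg (by omega)]
      unfold Lc
      rw [w0, w1, w2, if_neg (by omega), if_pos (by omega), if_neg (by omega),
        if_pos (by omega), if_neg (by omega), if_pos (by omega), if_neg (by omega), z,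
        show m - 1 - 1 = m - 2 by omega]
      linear_combination e

theorem colc_z (j : ℕ) : colc m t r f 0 j = G m t r f 1 j := by
  unfold colc
  by_cases h : j = 0
  · rw [if_pos h, h]
  · rw [if_neg h, if_pos rfl]

theorem w00 : wcc m ga 0 0 = 1 := by
  unfold wcc
  rw [if_pos rfl, if_pos rfl]

theorem w0 {j : ℕ} (h : j ≠ 0) : wcc m ga 0 j = ga 1 := by
  unfold wcc
  rw [if_pos rfl, if_neg h]

/-- row `c_0`, columns of the tail -/
theorem S_0_t (D : Dat m n al ga t r f) (i : Fin m) (hi : i.1 = 0) (s : Fin n) :
    S m n al ga t r f (.inl i) (.inr s) = 0 := by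
  have hm := D.hm
  unfold S
  rw [row_c D i (.inr s) (G m t r f (s.1 + 2)) (fun _ => 0) (fun _ => rfl) (fun _ => rfl), hi,
    if_pos (by omega), if_neg (by omega), if_pos rfl, if_neg (by omega), if_pos rfl, w00,
    w0 (by omega), w0 (by omega), G_sym _ le_rfl (by omega), G_orth D (by omega), G_zero]
  ring

/-- row `c_0`, columns of the cycle -/
theorem S_0_c (D : Dat m n al ga t r f) (i k : Fin m) (hi : i.1 = 0) (hk : 1 ≤ k.1) :
    S m n al ga t r f (.inl i) (.inl k) = T m t r f 1 k.1 := by
  have hm := D.hm
  have hk' := k.2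
  unfold S
  rw [row_c D i (.inl k) (fun l => colc m t r f k.1 l) (fun s => G m t r f (s + 2) k.1)
    (fun _ => rfl) (fun _ => rfl), hi, if_pos (by omega), if_neg (by omega), if_pos rfl,
    if_neg (by omega), if_pos rfl, w00, w0 (by omega), w0 (by omega)]
  have e := G_tail D 0 k.1
  rw [G_zero_eq D hk] at e
  simp only [colc, Lc]
  rw [if_neg (by omega), if_neg (by omega), if_neg (by omega), if_neg (by omega),
    show (0 + 1 - k.1) + (k.1 - (0 + 1)) = k.1 - 1 by omega,
    show (m - 1 - k.1) + (k.1 - (m - 1)) = m - 1 - k.1 by omega]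
  simp only [zero_add, if_true] at e ⊢
  linear_combination e

/-- cycle, cycle -/
theorem S_c_c (D : Dat m n al ga t r f) (i k : Fin m) (hi : 1 ≤ i.1) (hk : 1 ≤ k.1)
    (hik : i.1 ≠ k.1) :
    S m n al ga t r f (.inl i) (.inl k) = TH t r ((i.1 - k.1) + (k.1 - i.1)) := by
  have hm := D.hm
  have hk' := k.2
  have hi' := i.2
  unfold S
  rw [row_c D i (.inl k) (fun l => colc m t r f k.1 l) (fun s => G m t r f (s + 2) k.1)
    (fun _ => rfl) (fun _ => rfl)]
  generalize k.1 = k at hk hk' hik ⊢
  generalize i.1 = i at hi hi' hik ⊢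
  have c0 : colc m t r f k 0 = G m t r f 1 k := if_pos rfl
  have c1 : ∀ l, 1 ≤ l → colc m t r f k l = H t r ((l - k) + (k - l)) := by
    intro l hl
    unfold colc
    rw [if_neg (by omega), if_neg (by omega)]
  rcases Nat.lt_or_ge i 2 with h1 | h1
  · obtain rfl : i = 1 := by omega
    have e := H_row_one D (k := k) (by omega) (by omega)
    have a0 : wcc m ga 1 (1 - 1) = 2 := by
      unfold wcc
      rw [if_neg (by omega), if_pos (by omega), if_pos (by omega)]
    have a1 : wcc m ga 1 1 = 1 := by
      unfold wcc
      rw [if_neg (by omega), if_pos (by omega), if_neg (by omega), if_pos rfl]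
    have a2 : wcc m ga 1 (1 + 1) = 3 := by
      unfold wcc
      rw [if_neg (by omega), if_pos (by omega), if_neg (by omega), if_neg (by omega)]
    unfold Lc
    rw [a0, a1, a2, if_pos (by omega), if_pos (by omega), if_neg (by omega), if_neg (by omega),
      if_neg (by omega), if_pos (by omega), if_neg (by omega), show 1 - 1 = 0 by omega, c0,
      c1 _ (by omega), c1 _ (by omega), show 1 + 1 - k + (k - (1 + 1)) = k - 2 by omega,
      show 1 - k + (k - 1) = k - 1 by omega]
    linear_combination e
  · rcases Nat.lt_or_ge i (m - 1) with h2 | h2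
    · have w : ∀ j, wcc m ga i j = 1 := by
        intro j
        unfold wcc
        rw [if_neg (by omega), if_neg (by omega)]
      have e := H_rec (t := t) (r := r) ((i - k) + (k - i)) (by omega)
      unfold Lc
      rw [w, w, w, w, w, if_pos (by omega), if_pos (by omega), if_neg (by omega),
        if_neg (by omega), if_neg (by omega), if_neg (by omega), if_neg (by omega),
        c1 _ (by omega), c1 _ (by omega), ← e]
      rcases Nat.lt_or_ge i k with h3 | h3
      · rw [show i + 1 - k + (k - (i + 1)) = i - k + (k - i) - 1 by omega,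
          show i - 1 - k + (k - (i - 1)) = i - k + (k - i) + 1 by omega]
        ring
      · rw [show i + 1 - k + (k - (i + 1)) = i - k + (k - i) + 1 by omega,
          show i - 1 - k + (k - (i - 1)) = i - k + (k - i) - 1 by omega]
        ring
    · obtain rfl : i = m - 1 := by omega
      have e := H_row_last D (k := k) (by omega) (by omega)
      have a0 : wcc m ga (m - 1) 0 = 2 := by
        unfold wcc
        rw [if_neg (by omega), if_pos (by omega), if_pos rfl]
      have a1 : wcc m ga (m - 1) (m - 1) = 1 := by
        unfold wcc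
        rw [if_neg (by omega), if_pos (by omega), if_neg (by omega), if_pos rfl]
      have a2 : wcc m ga (m - 1) (m - 1 - 1) = 3 := by
        unfold wcc
        rw [if_neg (by omega), if_pos (by omega), if_neg (by omega), if_neg (by omega)]
      unfold Lc
      rw [a0, a1, a2, if_neg (by omega), if_pos (by omega), if_neg (by omega),
        if_pos (by omega), if_neg (by omega), if_pos (by omega), if_neg (by omega), c0,
        c1 _ (by omega), c1 _ (by omega),
        show m - 1 - 1 - k + (k - (m - 1 - 1)) = m - 2 - k by omega,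
        show m - 1 - k + (k - (m - 1)) = m - 1 - k by omega]
      linear_combination e

/-- path, cycle -/
theorem S_p_c (D : Dat m n al ga t r f) (i : Fin n) (k : Fin m) (hk : 1 ≤ k.1) :
    S m n al ga t r f (.inr i) (.inl k) = T m t r f (i.1 + 2) k.1 := by
  have hi := i.2
  unfold S
  rw [row_p D i (.inl k) (fun l => colc m t r f k.1 l) (fun s => G m t r f (s + 2) k.1)
    (fun _ => rfl) (fun _ => rfl)]
  have e := G_tail D (i.1 + 1) k.1
  have c0 : colc m t r f k.1 0 = G m t r f 1 k.1 := if_pos rfl
  have b1 : (if i.1 + 1 < n then wpp ga i.1 (i.1 + 1) * G m t r f (i.1 + 1 + 2) k.1 else 0) =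
      G m t r f (i.1 + 1 + 2) k.1 := by
    by_cases h : i.1 + 1 < n
    · rw [if_pos h, wpp, if_neg (by omega), one_mul]
    · rw [if_neg h, show i.1 + 1 + 2 = n + 2 by omega, G_flast D]
  have b2 : wpp ga i.1 i.1 = 1 := if_neg (by omega)
  rw [b1, b2, c0]
  unfold Lp
  by_cases h : i.1 = 0
  · rw [if_neg (by omega), if_pos h]
    rw [h] at e ⊢
    simp only [zero_add] at e ⊢
    linear_combination e
  · have b3 : wpp ga i.1 (i.1 - 1) = ga (i.1 + 2) := if_pos (by omega)
    rw [if_pos (by omega), if_neg h, b3, show i.1 - 1 + 2 = i.1 + 1 by omega]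
    rw [show i.1 + 1 + 1 = i.1 + 2 by omega] at e
    linear_combination e

/-- path, `c_0` -/
theorem S_p_0 (D : Dat m n al ga t r f) (i : Fin n) (k : Fin m) (hk : k.1 = 0) :
    S m n al ga t r f (.inr i) (.inl k) = 0 := by
  unfold S
  rw [row_p D i (.inl k) (fun l => colc m t r f k.1 l) (fun _ => 0)
    (fun _ => rfl) (fun s => by simp only [Xh, hk, G_zero])]
  have c0 : colc m t r f k.1 0 = 0 := by
    unfold colc
    rw [if_pos rfl, hk, G_zero]
  simp [c0]

/-- path, path -/
theorem S_p_p (D : Dat m n al ga t r f) (i j : Fin n) :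
    S m n al ga t r f (.inr i) (.inr j) = 0 := by
  unfold S
  rw [row_p D i (.inr j) (G m t r f (j.1 + 2)) (fun _ => 0) (fun _ => rfl) (fun _ => rfl), G_zero]
  simp

theorem S_symm (D : Dat m n al ga t r f) (x y : Fin m ⊕ Fin n) :
    S m n al ga t r f x y = S m n al ga t r f y x := by
  have key : ∀ (i : Fin m) (y : Fin m ⊕ Fin n),
      S m n al ga t r f (.inl i) y = S m n al ga t r f y (.inl i) := by
    intro i y
    rcases y with k | s
    · by_cases hi : i.1 = 0
      · by_cases hk : k.1 = 0
        · rw [Fin.ext (hi.trans hk.symm)]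
        · rw [S_0_c D i k hi (by omega)]
          refine (S_G D 1 k (by omega) (.inl i) (fun _ => 0) (fun j => ?_) (fun j => ?_)).symm
          · simp only [Xh, hi, colc_z]
          · simp only [Xh, hi, G_zero]
      · by_cases hk : k.1 = 0
        · rw [S_0_c D k i hk (by omega)]
          refine S_G D 1 i (by omega) (.inl k) (fun _ => 0) (fun j => ?_) (fun j => ?_)
          · simp only [Xh, hk, colc_z]
          · simp only [Xh, hk, G_zero]
        · by_cases h : i.1 = k.1
          · rw [Fin.ext h]
          · rw [S_c_c D i k (by omega) (by omega) h, S_c_c D k i (by omega) (by omega) (Ne.symm h),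
              Nat.add_comm (i.1 - k.1)]
    · by_cases hi : i.1 = 0
      · rw [S_0_t D i hi, S_p_0 D s i hi]
      · rw [S_p_c D s i (by omega)]
        exact S_G D (s.1 + 2) i (by omega) (.inr s) (fun _ => 0) (fun _ => rfl) (fun _ => rfl)
  rcases x with i | i
  · exact key i y
  · rcases y with k | s
    · exact (key k _).symm
    · rw [S_p_p D, S_p_p D]

end Pool.Agent.U955.TD
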